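import Mathlib

/-!
# A binary quasi group code of length 12 whose permutation automorphism group has order 2

The code `C` has the parity check matrix with the columns `22, 50, 17, 10, 24, 3, 14, 49, 12, 33, 1,
8` (numbers below `64` stand for vectors with six bits). The permutation `σ` exchanging the
coordinates `2 j` and `2 j + 1` exchanges the two halves of every column. The numbers of the words
of weight `3` and `4` through a coordinate distinguish the six pairs `{2 j, 2 j + 1}`, so every
permutation automorphism preserves the pairs, and the words of weight `3` and `4` show that it is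
the identity or `σ`.
-/

namespace Pool.Agent.Results.MP_e1d516_co.LengthTwelve

/-- The permutation automorphism group of a binary linear code of length `n`: the permutations `β`
of the coordinates with `C^β = C`, where `c^β = (c (β⁻¹ 1), …, c (β⁻¹ n))`. -/
def PAut {n : ℕ} (C : Submodule (ZMod 2) (Fin n → ZMod 2)) : Subgroup (Equiv.Perm (Fin n)) where
  carrier := {β | ∀ c : Fin n → ZMod 2, (fun i => c (β⁻¹ i)) ∈ C ↔ c ∈ C}
  one_mem' := fun _ => Iff.rfl
  mul_mem' := by
    intro a b ha hb c
    have h1 := hb c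
    have h2 := ha (fun i => c (b⁻¹ i))
    rw [← h1, ← h2]
    rfl
  inv_mem' := by
    intro a ha c
    have h1 := ha (fun i => c (a⁻¹⁻¹ i))
    rw [← h1]
    have : (fun i => (fun i => c (a⁻¹⁻¹ i)) (a⁻¹ i)) = c := by
      funext i
      simp
    rw [this]

/-- The columns of the parity check matrix. -/
def hc : Fin 12 → ℕ := ![22, 50, 17, 10, 24, 3, 14, 49, 12, 33, 1, 8]

/-- The parity check matrix. -/
def H (r : Fin 6) (i : Fin 12) : ZMod 2 := if (hc i).testBit r then 1 else 0

/-- The code. -/
def C : Submodule (ZMod 2) (Fin 12 → ZMod 2) where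
  carrier := {c | ∀ r, ∑ i, H r i * c i = 0}
  zero_mem' := by intro r; simp
  add_mem' := by
    intro a b ha hb r
    have : ∑ i, H r i * (a + b) i = ∑ i, H r i * a i + ∑ i, H r i * b i := by
      rw [← Finset.sum_add_distrib]
      exact Finset.sum_congr rfl fun i _ => mul_add _ _ _
    rw [this, ha r, hb r, add_zero]
  smul_mem' := by
    intro x a ha r
    have : ∑ i, H r i * (x • a) i = x * ∑ i, H r i * a i := by
      rw [Finset.mul_sum]
      refine Finset.sum_congr rfl fun i _ => ?_
      simp only [Pi.smul_apply, smul_eq_mul]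
      ring
    rw [this, ha r, mul_zero]

/-- The exchange of `2 j` and `2 j + 1`. -/
def sf (i : Fin 12) : Fin 12 := ![1, 0, 3, 2, 5, 4, 7, 6, 9, 8, 11, 10] i

/-- The fixed point free involution. -/
def σ : Equiv.Perm (Fin 12) where
  toFun := sf
  invFun := sf
  left_inv := by decide
  right_inv := by decide

/-- The exchange of the two halves of the rows. -/
def rf (r : Fin 6) : Fin 6 := ![3, 4, 5, 0, 1, 2] r

theorem H_sf : ∀ r i, H r (sf i) = H (rf r) i := by decide

theorem rf_rf : ∀ r, rf (rf r) = r := by decide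

theorem σ_mem : σ ∈ PAut C := by
  have key : ∀ c : Fin 12 → ZMod 2, c ∈ C → (fun i => c (sf i)) ∈ C := by
    intro c hc r
    have h1 : ∑ i, H r i * c (sf i) = ∑ i, H (rf r) i * c i := by
      rw [← Equiv.sum_comp σ (fun i => H r i * c (sf i))]
      refine Finset.sum_congr rfl fun i _ => ?_
      show H r (sf i) * c (sf (sf i)) = _
      rw [H_sf, show sf (sf i) = i from σ.left_inv i]
    show ∑ i, H r i * c (sf i) = 0
    rw [h1]
    exact hc (rf r)
  intro c
  constructor
  · intro h
    have h1 := key _ h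
    have h2 : (fun i => (fun i => c (σ⁻¹ i)) (sf i)) = c := by
      funext i
      show c (sf (sf i)) = c i
      rw [show sf (sf i) = i from σ.left_inv i]
    rwa [h2] at h1
  · intro h
    exact key c h

/-- The characteristic vector of a list of coordinates. -/
def vec (l : List (Fin 12)) (i : Fin 12) : ZMod 2 := if i ∈ l then 1 else 0

theorem vec_mem (l : List (Fin 12)) (hl : l.Nodup) :
    vec l ∈ C ↔ ∀ r, (l.map (H r)).sum = 0 := by
  have h1 : ∀ r, ∑ i, H r i * vec l i = (l.map (H r)).sum := by
    intro r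
    have h2 : ∑ i, H r i * vec l i = ∑ i ∈ l.toFinset, H r i := by
      rw [← Finset.sum_filter_add_sum_filter_not Finset.univ (fun i => i ∈ l)]
      have h3 : ∑ i ∈ Finset.univ.filter (fun i => ¬ i ∈ l), H r i * vec l i = 0 := by
        apply Finset.sum_eq_zero
        intro i hi
        have := (Finset.mem_filter.1 hi).2
        unfold vec
        rw [if_neg this, mul_zero]
      rw [h3, add_zero]
      apply Finset.sum_congr
      · ext i
        simp
      · intro i hi
        have : i ∈ l := by simpa using hi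
        unfold vec
        rw [if_pos this, mul_one]
    rw [h2, List.sum_toFinset _ hl]
  constructor
  · intro h r
    rw [← h1]
    exact h r
  · intro h r
    rw [h1]
    exact h r

/-- The sum of the columns of a list vanishes. -/
def Z (l : List (Fin 12)) : Prop := l.foldr (fun i x => hc i ^^^ x) 0 = 0

instance (l : List (Fin 12)) : Decidable (Z l) := by
  unfold Z
  infer_instance

theorem testBit_foldr (l : List (Fin 12)) (r : Fin 6) :
    (l.map (H r)).sum = if (l.foldr (fun i x => hc i ^^^ x) 0).testBit r then 1 else 0 := by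
  induction l with
  | nil => simp
  | cons a l ih =>
    rw [List.map_cons, List.sum_cons, ih, List.foldr_cons, Nat.testBit_xor]
    unfold H
    cases (hc a).testBit r <;> cases (l.foldr (fun i x => hc i ^^^ x) 0).testBit r <;> decide

theorem foldr_lt (l : List (Fin 12)) : l.foldr (fun i x => hc i ^^^ x) 0 < 2 ^ 6 := by
  induction l with
  | nil => decide
  | cons a l ih =>
    rw [List.foldr_cons]
    refine Nat.xor_lt_two_pow ?_ ih
    revert a
    decide

theorem mem_iff (l : List (Fin 12)) (hl : l.Nodup) : vec l ∈ C ↔ Z l := by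
  rw [vec_mem l hl]
  constructor
  · intro h
    apply Nat.eq_of_testBit_eq
    intro i
    rw [Nat.zero_testBit]
    rcases Nat.lt_or_ge i 6 with hi | hi
    · have h1 := h ⟨i, hi⟩
      rw [testBit_foldr] at h1
      by_contra hne
      rw [if_pos (by simpa using hne)] at h1
      exact absurd h1 (by decide)
    · apply Nat.testBit_lt_two_pow
      exact lt_of_lt_of_le (foldr_lt l) (Nat.pow_le_pow_right (by norm_num) hi)
  · intro h r
    rw [testBit_foldr, show l.foldr (fun i x => hc i ^^^ x) 0 = 0 from h, Nat.zero_testBit]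
    simp

theorem vec_map (β : Equiv.Perm (Fin 12)) (l : List (Fin 12)) :
    (fun i => vec l (β⁻¹ i)) = vec (l.map β) := by
  funext i
  unfold vec
  have : (β⁻¹ i ∈ l) ↔ i ∈ l.map β := by
    rw [List.mem_map]
    constructor
    · intro h
      exact ⟨_, h, β.apply_symm_apply i⟩
    · rintro ⟨j, hj, rfl⟩
      rwa [show β⁻¹ (β j) = j from β.symm_apply_apply j]
  simp only [this]

/-- Automorphisms preserve the vanishing sums of columns. -/
theorem Z_map {β : Equiv.Perm (Fin 12)} (hβ : β ∈ PAut C) (l : List (Fin 12)) (hl : l.Nodup) :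
    Z (l.map β) ↔ Z l := by
  rw [← mem_iff l hl, ← mem_iff (l.map β) (hl.map β.injective), ← vec_map]
  exact hβ (vec l)

/-- The ordered words of weight `3` through `i`. -/
def W3 (i : Fin 12) : Finset (Fin 12 × Fin 12) :=
  Finset.univ.filter fun t => [i, t.1, t.2].Nodup ∧ Z [i, t.1, t.2]

/-- The ordered words of weight `4` through `i`. -/
def W4 (i : Fin 12) : Finset (Fin 12 × Fin 12 × Fin 12) :=
  Finset.univ.filter fun t => [i, t.1, t.2.1, t.2.2].Nodup ∧ Z [i, t.1, t.2.1, t.2.2]

theorem card3 {β : Equiv.Perm (Fin 12)} (hβ : β ∈ PAut C) (i : Fin 12) :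
    (W3 (β i)).card = (W3 i).card := by
  symm
  apply Finset.card_bij (fun t _ => (β t.1, β t.2))
  · intro t ht
    have h1 := (Finset.mem_filter.1 ht).2
    refine Finset.mem_filter.2 ⟨Finset.mem_univ _, ?_, ?_⟩
    · exact h1.1.map β.injective
    · exact (Z_map hβ _ h1.1).2 h1.2
  · intro t _ u _ h
    have h1 := congrArg Prod.fst h
    have h2 := congrArg Prod.snd h
    exact Prod.ext (β.injective h1) (β.injective h2)
  · intro t ht
    have h1 := (Finset.mem_filter.1 ht).2
    have h2 : [β i, t.1, t.2] = [i, β⁻¹ t.1, β⁻¹ t.2].map β := by simp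
    rw [h2] at h1
    have h3 : [i, β⁻¹ t.1, β⁻¹ t.2].Nodup := h1.1.of_map _
    exact ⟨(β⁻¹ t.1, β⁻¹ t.2), Finset.mem_filter.2 ⟨Finset.mem_univ _, h3, (Z_map hβ _ h3).1 h1.2⟩,
      by simp⟩

theorem card4 {β : Equiv.Perm (Fin 12)} (hβ : β ∈ PAut C) (i : Fin 12) :
    (W4 (β i)).card = (W4 i).card := by
  symm
  apply Finset.card_bij (fun t _ => (β t.1, β t.2.1, β t.2.2))
  · intro t ht
    have h1 := (Finset.mem_filter.1 ht).2
    refine Finset.mem_filter.2 ⟨Finset.mem_univ _, ?_, ?_⟩
    · exact h1.1.map β.injective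
    · exact (Z_map hβ _ h1.1).2 h1.2
  · intro t _ u _ h
    have h1 := congrArg Prod.fst h
    have h2 := congrArg (fun z => z.2.1) h
    have h3 := congrArg (fun z => z.2.2) h
    exact Prod.ext (β.injective h1) (Prod.ext (β.injective h2) (β.injective h3))
  · intro t ht
    have h1 := (Finset.mem_filter.1 ht).2
    have h2 : [β i, t.1, t.2.1, t.2.2] = [i, β⁻¹ t.1, β⁻¹ t.2.1, β⁻¹ t.2.2].map β := by simp
    rw [h2] at h1
    have h3 : [i, β⁻¹ t.1, β⁻¹ t.2.1, β⁻¹ t.2.2].Nodup := h1.1.of_map _
    exact ⟨(β⁻¹ t.1, β⁻¹ t.2.1, β⁻¹ t.2.2),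
      Finset.mem_filter.2 ⟨Finset.mem_univ _, h3, (Z_map hβ _ h3).1 h1.2⟩, by simp⟩

theorem tab3 : ∀ i, (W3 i).card = ![2, 2, 0, 0, 2, 2, 2, 2, 0, 0, 0, 0] i := by
  decide +kernel

theorem tab4 : ∀ i, (W4 i).card = ![0, 0, 18, 18, 18, 18, 12, 12, 12, 12, 24, 24] i := by
  decide +kernel

theorem pair_of_tab : ∀ i j : Fin 12,
    (![2, 2, 0, 0, 2, 2, 2, 2, 0, 0, 0, 0] : Fin 12 → ℕ) j =
      (![2, 2, 0, 0, 2, 2, 2, 2, 0, 0, 0, 0] : Fin 12 → ℕ) i →
    (![0, 0, 18, 18, 18, 18, 12, 12, 12, 12, 24, 24] : Fin 12 → ℕ) j =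
      (![0, 0, 18, 18, 18, 18, 12, 12, 12, 12, 24, 24] : Fin 12 → ℕ) i → j = i ∨ j = sf i := by
  decide

/-- The map exchanging the pairs for which `s` is true. -/
def bs (s : Fin 6 → Bool) (i : Fin 12) : Fin 12 :=
  if s ⟨i.1 / 2, by omega⟩ then sf i else i

theorem const_of_words : ∀ s : Fin 6 → Bool,
    (Z [bs s 0, bs s 4, bs s 6] ∧ Z [bs s 2, bs s 3, bs s 4, bs s 5] ∧
      Z [bs s 2, bs s 4, bs s 10, bs s 11] ∧ Z [bs s 2, bs s 7, bs s 9, bs s 10] ∧
      Z [bs s 3, bs s 6, bs s 8, bs s 11] ∧ Z [bs s 4, bs s 7, bs s 9, bs s 11]) →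
    (∀ j, s j = false) ∨ (∀ j, s j = true) := by
  decide +kernel

theorem odd_case : ∀ i : Fin 12, i.1 % 2 = 1 → (⟨2 * (i.1 / 2), by omega⟩ : Fin 12) = sf i := by
  decide

theorem sf_ne : ∀ i, sf i ≠ i := by decide

theorem aut_cases {β : Equiv.Perm (Fin 12)} (hβ : β ∈ PAut C) : β = 1 ∨ β = σ := by
  have h1 : ∀ i, β i = i ∨ β i = sf i := by
    intro i
    apply pair_of_tab i (β i)
    · rw [← tab3, ← tab3, card3 hβ]
    · rw [← tab4, ← tab4, card4 hβ]
  let s : Fin 6 → Bool := fun j => decide (β ⟨2 * j.1, by omega⟩ ≠ ⟨2 * j.1, by omega⟩)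
  have h2 : ∀ i, β i = bs s i := by
    have hodd : ∀ i : Fin 12, (s ⟨i.1 / 2, by omega⟩ = true ↔ β i ≠ i) := by
      intro i
      show decide (β ⟨2 * (i.1 / 2), by omega⟩ ≠ ⟨2 * (i.1 / 2), by omega⟩) = true ↔ β i ≠ i
      rw [decide_eq_true_iff]
      rcases Nat.even_or_odd' i.1 with ⟨m, hm | hm⟩
      · have : (⟨2 * (i.1 / 2), by omega⟩ : Fin 12) = i := Fin.ext (by simp only; omega)
        rw [this]
      · rw [odd_case i (by omega)]
        have hss : sf (sf i) = i := σ.left_inv i
        have hne : sf i ≠ i := sf_ne i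
        constructor
        · intro h4 h5
          rcases h1 (sf i) with h6 | h6
          · exact h4 h6
          · rw [hss] at h6
            have := β.injective (h6.trans h5.symm)
            exact hne this
        · intro h4 h5
          rcases h1 i with h6 | h6
          · exact h4 h6
          · have := β.injective (h6.trans h5.symm)
            exact hne this.symm
    intro i
    unfold bs
    by_cases h3 : s ⟨i.1 / 2, by omega⟩ = true
    · rw [if_pos h3]
      rcases h1 i with h4 | h4
      · exact absurd h4 ((hodd i).1 h3)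
      · exact h4
    · rw [if_neg h3]
      by_contra h4
      exact h3 ((hodd i).2 h4)
  have hz : ∀ l : List (Fin 12), l.Nodup → Z l → Z (l.map (bs s)) := by
    intro l hl hz
    have h3 := (Z_map hβ l hl).2 hz
    have h4 : l.map β = l.map (bs s) := List.map_congr_left fun i _ => h2 i
    rwa [h4] at h3
  rcases const_of_words s ⟨hz [0, 4, 6] (by decide) (by decide),
      hz [2, 3, 4, 5] (by decide) (by decide), hz [2, 4, 10, 11] (by decide) (by decide),
      hz [2, 7, 9, 10] (by decide) (by decide), hz [3, 6, 8, 11] (by decide) (by decide),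
      hz [4, 7, 9, 11] (by decide) (by decide)⟩ with h3 | h3
  · left
    apply Equiv.ext
    intro i
    rw [h2 i]
    unfold bs
    rw [h3]
    rfl
  · right
    apply Equiv.ext
    intro i
    rw [h2 i]
    unfold bs
    rw [h3]
    rfl

/-- There are an even length `2 m ≥ 4`, a binary linear code of this length and a fixed point free
involution `σ` such that the permutation automorphism group of the code is `{1, σ}`. -/
theorem result : ∃ m : ℕ, 2 ≤ m ∧ ∃ C : Submodule (ZMod 2) (Fin (2 * m) → ZMod 2),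
    ∃ σ : Equiv.Perm (Fin (2 * m)), (∀ i, σ i ≠ i) ∧ σ * σ = 1 ∧
      ∀ β : Equiv.Perm (Fin (2 * m)), β ∈ PAut C ↔ β = 1 ∨ β = σ := by
  refine ⟨6, by norm_num, C, σ, ?_, ?_, ?_⟩
  · exact sf_ne
  · apply Equiv.ext
    intro i
    exact σ.left_inv i
  · intro β
    constructor
    · exact aut_cases
    · rintro (rfl | rfl)
      · exact one_mem _
      · exact σ_mem

end Pool.Agent.Results.MP_e1d516_co.LengthTwelve
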